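import Pool.Agent.Helper19.TGX.Goals
import Pool.Agent.Helper24.SGB.ELAW

/-!
# Project TGX (MP_a41896_nt), C1: assembly
-/

set_option autoImplicit false

open Polynomial

namespace Pool.Agent.Helper19.TGX

open WeierstrassCurve
open Pool.Agent.Helper29.BL Pool.Agent.Helper42.SG
open Pool.Agent.Helper60.T3 (WL zd IP)
open Pool.Agent.Helper92.TG (mp)
open Pool.Agent.Helper60.TGX (Val AddF S_C1)

noncomputable section

variable {k : Type} [Field k]

theorem aeval_ne {F : Type} [Field F] [Algebra k F] {x : F} (hx : Transcendental k x) {p : k[X]}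
    (hp : p ≠ 0) : aeval x p ≠ 0 := fun h => hx ⟨p, hp, h⟩

theorem wl_ell {F : Type} [Field F] [Algebra k F] {W : Affine k} (hW : W.IsElliptic) :
    (WL F W).IsElliptic := by
  haveI := hW
  exact inferInstanceAs (WeierstrassCurve.IsElliptic (W.map (algebraMap k F)))

theorem charZero_alg [CharZero k] (F : Type) [Field F] [Algebra k F] : CharZero F :=
  charZero_of_injective_algebraMap (algebraMap k F).injective

theorem val_unique (hPTS : PTS) [CharZero k] {W W' : Affine k} (hW' : W'.IsElliptic)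
    {A B C E : k[X]} (hB : B ≠ 0) (hE : E ≠ 0) {F : Type} [Field F] [DecidableEq F] [Algebra k F]
    {P : (WL F W).Point} (hP : Transcendental k (xc P)) {R R' : (WL F W').Point}
    (h : Val A B C E P R) (h' : Val A B C E P R') : R = R' := by
  haveI := charZero_alg (k := k) F
  refine (hPTS F (WL F W') (wl_ell hW')).2.1 R R' h.1 h'.1 ?_ ?_
  · exact mul_right_cancel₀ (aeval_ne hP hB) (h.2.1.trans h'.2.1.symm)
  · exact mul_right_cancel₀ (aeval_ne hP hE) (h.2.2.trans h'.2.2.symm)

/-- the Wronskian of two coprime polynomials is zero only if they are constants -/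
theorem wr_zero [CharZero k] {A B : k[X]} (h : IsCoprime A B) (hB : B ≠ 0)
    (hw : wr A B = 0) : ∃ a b : k, A = C a ∧ B = C b ∧ b ≠ 0 := by
  have hw' : derivative A * B = A * derivative B := sub_eq_zero.mp hw
  have h1 : B ∣ derivative B := h.symm.dvd_of_dvd_mul_left (Dvd.intro_left _ hw')
  have hB' : derivative B = 0 := by
    by_contra h0
    have := Polynomial.degree_le_of_dvd h1 h0
    exact absurd (Polynomial.degree_derivative_lt hB) (not_lt.mpr this)
  have hA' : derivative A = 0 := by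
    rw [hB', mul_zero] at hw'
    exact (mul_eq_zero.mp hw').resolve_right hB
  have eA := Polynomial.eq_C_of_derivative_eq_zero hA'
  have eB := Polynomial.eq_C_of_derivative_eq_zero hB'
  refine ⟨A.coeff 0, B.coeff 0, eA, eB, fun h0 => hB ?_⟩
  rw [eB, h0, C_0]

/-- `g + t` -/
def GMap.addC [CharZero k] [DecidableEq k] {W W' : Affine k} (g : GMap W W')
    (t : (WL k W').Point) : GMap W W' where
  f F _ _ _ P := g.f F P + mp (Algebra.ofId k F) t
  nat F F' _ _ _ _ _ _ j P hP := by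
    rw [g.nat F F' j P hP]
    have h1 : mp j (g.f F P + mp (Algebra.ofId k F) t) =
        mp j (g.f F P) + mp j (mp (Algebra.ofId k F) t) :=
      map_add (Affine.Point.map (W' := W') j) _ _
    rw [h1]
    congr 1
    have h2 : mp j (mp (Algebra.ofId k F) t) = mp (j.comp (Algebra.ofId k F)) t :=
      Affine.Point.map_map (W' := W') (Algebra.ofId k F) j t
    rw [h2]
    congr 1
    exact Subsingleton.elim _ _

theorem mp_zero' {W : Affine k} {F F' : Type} [Field F] [DecidableEq F] [Algebra k F] [Field F']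
    [DecidableEq F'] [Algebra k F'] (j : F →ₐ[k] F') : mp j (0 : (WL F W).Point) = 0 :=
  map_zero (Affine.Point.map (W' := W) j)

theorem mp_add' {W : Affine k} {F F' : Type} [Field F] [DecidableEq F] [Algebra k F] [Field F']
    [DecidableEq F'] [Algebra k F'] (j : F →ₐ[k] F') (P Q : (WL F W).Point) :
    mp j (P + Q) = mp j P + mp j Q :=
  map_add (Affine.Point.map (W' := W) j) _ _

theorem mp_sub' {W : Affine k} {F F' : Type} [Field F] [DecidableEq F] [Algebra k F] [Field F']
    [DecidableEq F'] [Algebra k F'] (j : F →ₐ[k] F') (P Q : (WL F W).Point) :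
    mp j (P - Q) = mp j P - mp j Q :=
  map_sub (Affine.Point.map (W' := W) j) _ _

theorem mp_neg' {W : Affine k} {F F' : Type} [Field F] [DecidableEq F] [Algebra k F] [Field F']
    [DecidableEq F'] [Algebra k F'] (j : F →ₐ[k] F') (P : (WL F W).Point) :
    mp j (-P) = -mp j P :=
  map_neg (Affine.Point.map (W' := W) j) _

theorem addC_gadd [CharZero k] [DecidableEq k] {W W' : Affine k} (g : GMap W W')
    (t : (WL k W').Point) (h : GAdd g t) : GAdd (g.addC t) 0 := by
  intro F _ _ _ P Q hi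
  change g.f F (P + Q) + mp (Algebra.ofId k F) t = g.f F P + mp (Algebra.ofId k F) t +
    (g.f F Q + mp (Algebra.ofId k F) t) + mp (Algebra.ofId k F) 0
  rw [h F P Q hi, mp_zero']
  abel

/-- the points whose coordinates are constants -/
theorem const_of_x (hMPX : MPX) [CharZero k] [IsAlgClosed k] [DecidableEq k] {W' : Affine k}
    {F : Type} [Field F] [DecidableEq F] [Algebra k F] (R : (WL F W').Point)
    (h : ∃ a : k, xc R = algebraMap k F a) : ∃ r : (WL k W').Point,
      mp (Algebra.ofId k F) r = R := by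
  haveI := charZero_alg (k := k) F
  refine (hMPX k W' k F (Algebra.ofId k F) 0).2.2.2 R ?_
  rcases eq_or_ne R 0 with h0 | h0
  · exact Or.inl h0
  · obtain ⟨a, ha⟩ := h
    refine Or.inr ⟨⟨a, ha.symm⟩, ?_⟩
    have h1 : ps R ^ 2 = algebraMap k F (Bf W' a) := by
      rw [Pool.Agent.Helper24.SGB.ps_sq R h0, ha]
      simp only [Bf, WL, WeierstrassCurve.map_b₂, WeierstrassCurve.map_b₄,
        WeierstrassCurve.map_b₆, map_add, map_mul, map_pow]
      rw [map_ofNat, map_ofNat]
    obtain ⟨b, hb⟩ := IsAlgClosed.exists_pow_nat_eq (Bf W' a) (n := 2) two_pos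
    rw [← hb, map_pow] at h1
    rcases sq_eq_sq_iff_eq_or_eq_neg.mp h1 with h2 | h2
    · exact ⟨b, h2.symm⟩
    · exact ⟨-b, by rw [h2]; exact map_neg (Algebra.ofId k F) b⟩

theorem c1 (hPTS : PTS) (hMPX : MPX) (hGMX : GMX) (hGDR : GDR) (hGAD : GAD) (hC1A : C1A)
    (hGFO : GFO) (hIN2 : IN2) : S_C1 := by
  intro k _ _ _ W W' hW hW' F _ _ _ P S hP hS htS
  classical
  obtain ⟨g, hg⟩ := hGMX k W W' hW F P S hP hS
  obtain ⟨a, ha⟩ := hGDR k W W' hW hW' g
  obtain ⟨t, ht⟩ := hGAD k W W' hW hW' g a ha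
  have hR0 := addC_gadd g t ht
  set r : GMap W W' := g.addC t with hr
  have hRv : r.f F P = S + mp (Algebra.ofId k F) t := by rw [← hg]; rfl
  have hnc : ∀ s : (WL k W').Point, mp (Algebra.ofId k F) s ≠ S := by
    intro s hs
    apply htS
    rw [← hs, (hMPX k W' k F (Algebra.ofId k F) s).1]
    exact isAlgebraic_algebraMap _
  have hnc' : ∀ s : (WL k W').Point, mp (Algebra.ofId k F) s ≠ r.f F P := by
    intro s hs
    refine hnc (s - t) ?_
    rw [mp_sub', hs, hRv]
    abel
  have hodd := hC1A k W W' hW hW' r hR0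
  rcases hGFO k W W' hW hW' r hodd with hz | ⟨A, B, C, E, hcop, hB, hE, hval, -⟩
  · exact absurd ((mp_zero' (Algebra.ofId k F)).trans (hz F P hP).symm) (hnc' 0)
  have hwr : wr A B ≠ 0 := by
    intro h0
    obtain ⟨a', b', eA, eB, hb'⟩ := wr_zero hcop hB h0
    have h1 := (hval F P hP).2.1
    rw [eA, eB, aeval_C, aeval_C] at h1
    obtain ⟨s, hs⟩ := const_of_x hMPX (r.f F P) ⟨a' / b', by
      rw [map_div₀, eq_div_iff ((map_ne_zero (algebraMap k F)).mpr hb')]
      exact h1⟩
    exact hnc' s hs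
  refine ⟨A, B, C, E, r.f F P, -mp (Algebra.ofId k F) t, ?_, hval F P hP, ?_, ?_⟩
  · refine ⟨hcop, hB, hE, hwr, ?_, ?_⟩
    · intro F₁ _ _ _ P₁ hP₁
      exact ⟨r.f F₁ P₁, hval F₁ P₁ hP₁⟩
    · intro F₁ _ _ _ P₁ Q₁ R R' R'' hi h1 h2 h3
      obtain ⟨i1, i2, i3, -⟩ := hIN2 k W hW F₁ P₁ Q₁ hi
      have e1 := val_unique hPTS hW' hB hE i1 h1 (hval F₁ P₁ i1)
      have e2 := val_unique hPTS hW' hB hE i2 h2 (hval F₁ Q₁ i2)
      have e3 := val_unique hPTS hW' hB hE i3 h3 (hval F₁ (P₁ + Q₁) i3)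
      rw [e1, e2, e3, hR0 F₁ P₁ Q₁ hi, mp_zero', add_zero]
  · rw [← mp_neg']
    obtain ⟨h1, h2, -⟩ := hMPX k W' k F (Algebra.ofId k F) (-t)
    exact Or.inr ⟨⟨_, h1.symm⟩, ⟨_, h2.symm⟩⟩
  · rw [hRv]
    abel

end

end Pool.Agent.Helper19.TGX
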