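import Pool.Agent.Helper19.TGX.AsmA

/-!
# Project TGX (MP_a41896_nt), C2: assembly
-/

set_option autoImplicit false

open Polynomial

namespace Pool.Agent.Helper19.TGX

open WeierstrassCurve
open Pool.Agent.Helper29.BL Pool.Agent.Helper42.SG
open Pool.Agent.Helper60.T3 (WL zd IP)
open Pool.Agent.Helper92.TG (mp)
open Pool.Agent.Helper60.TGX (Val AddF S_C2)

noncomputable section

theorem wl_wl {K K₂ Ω : Type} [Field K] [Field K₂] [Field Ω] [Algebra K K₂] [Algebra K₂ Ω]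
    [Algebra K Ω] [IsScalarTower K K₂ Ω] (W : Affine K) : WL Ω (WL K₂ W) = WL Ω W := by
  refine (WeierstrassCurve.map_map W (algebraMap K K₂) (algebraMap K₂ Ω)).trans ?_
  rw [← IsScalarTower.algebraMap_eq K K₂ Ω]

theorem c2 (hNRM : NRM) (hKIL : KIL) (hALGZ : ALGZ) (hNFE : NFE) (hDSC : DSC) : S_C2 := by
  intro K Ω _ _ _ _ _ W W' hW hW' A B C E hadd
  haveI : CharZero Ω := charZero_alg (k := K) Ω
  obtain ⟨A₁, B₁, C₁, E₁, h1, hB1, hE1, hcop, eAB, eCE⟩ :=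
    hNRM Ω (WL Ω W) (WL Ω W') (wl_ell hW) (wl_ell hW') A B C E hadd
  have hk := hKIL K Ω W W' hW hW' A₁ B₁ C₁ E₁ h1 hB1 hE1 hcop
  obtain ⟨K₂, i1, i2, i3, i4, i5, q, hq⟩ := hNFE K Ω ![A₁, B₁, C₁, E₁] (by
    intro i n
    refine hALGZ K Ω _ fun δ => ?_
    obtain ⟨ha, hb, hc, hd⟩ := hk δ n
    fin_cases i
    · exact ha
    · exact hb
    · exact hc
    · exact hd)
  have e0 : (q 0).map (algebraMap K₂ Ω) = A₁ := hq 0
  have e1 : (q 1).map (algebraMap K₂ Ω) = B₁ := hq 1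
  have e2 : (q 2).map (algebraMap K₂ Ω) = C₁ := hq 2
  have e3 : (q 3).map (algebraMap K₂ Ω) = E₁ := hq 3
  refine ⟨K₂, i1, i2, i3, i4, i5, q 0, q 1, q 2, q 3, ?_, ?_, ?_⟩
  · refine hDSC K₂ Ω (WL K₂ W) (WL K₂ W') (wl_ell hW) (wl_ell hW') (q 0) (q 1) (q 2) (q 3) ?_
    rw [e0, e1, e2, e3, wl_wl, wl_wl]
    exact h1
  · rw [e0, e1]
    exact eAB
  · rw [e2, e3]
    exact eCE

end

end Pool.Agent.Helper19.TGX
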