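import Pool.Agent.Helper19.TGX.AsmA

/-!
# Project TGX (MP_a41896_nt): packet C1A
-/

set_option autoImplicit false

namespace Pool.Agent.Helper19.TGX

open WeierstrassCurve
open Pool.Agent.Helper29.BL Pool.Agent.Helper42.SG
open Pool.Agent.Helper60.T3 (WL)
open Pool.Agent.Helper92.TG (mp)

theorem mp_inj (hMPX : MPX) {k : Type} [Field k] [CharZero k] {W : Affine k} {F F' : Type}
    [Field F] [DecidableEq F] [Algebra k F] [Field F'] [DecidableEq F'] [Algebra k F']
    (j : F →ₐ[k] F') {P Q : (WL F W).Point} (h : mp j P = mp j Q) : P = Q := by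
  have h1 : mp j (P - Q) = 0 := by
    rw [mp_sub', h, sub_self]
  exact sub_eq_zero.mp (((hMPX k W F F' j (P - Q)).2.2.1).mp h1)

theorem c1a (hIN2 : IN2) (hIN3 : IN3) (hMPX : MPX) (hPTS : PTS) : C1A := by
  intro k _ _ _ _ W W' hW hW' g hadd F _ _ _ P hP
  obtain ⟨F', i1, i2, i3, j, Q, hi⟩ := hIN3 k W hW F P hP
  obtain ⟨h1, h2, h3, h4⟩ := hIN2 k W hW F' (mp j P) Q hi
  have e1 := hadd F' (mp j P) Q hi
  have e2 := hadd F' (mp j P + Q) (-mp j P) h4
  rw [mp_zero', add_zero] at e1 e2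
  have e3 : mp j P + Q + -mp j P = Q := by abel
  rw [e3, e1] at e2
  have e4 : g.f F' (-mp j P) = -g.f F' (mp j P) := by
    have : g.f F' (mp j P) + g.f F' (-mp j P) = 0 := by
      have h5 : g.f F' Q + (g.f F' (mp j P) + g.f F' (-mp j P)) = g.f F' Q + 0 := by
        rw [add_zero]
        nth_rewrite 2 [e2]
        abel
      exact add_left_cancel h5
    exact (neg_eq_of_add_eq_zero_right this).symm
  haveI := charZero_alg (k := k) F
  have hP' : Transcendental k (xc (-P)) := by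
    rw [((hPTS F (WL F W) (wl_ell hW)).2.2 P).1]
    exact hP
  apply mp_inj hMPX j
  rw [← g.nat F F' j (-P) hP', mp_neg', e4, g.nat F F' j P hP, mp_neg']

end Pool.Agent.Helper19.TGX
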