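import Pool.Agent.Helper19.TGX.AsmA
import Pool.Agent.Helper60.T3.Ind

/-!
# Project TGX (MP_a41896_nt): packet CST
-/

set_option autoImplicit false

open Polynomial

namespace Pool.Agent.Helper19.TGX

open WeierstrassCurve
open Pool.Agent.Helper29.BL Pool.Agent.Helper42.SG
open Pool.Agent.Helper60.T3 (WL zd)
open Pool.Agent.Helper92.TG (mp)

theorem cst (hBPF : BPF) (hMPX : MPX) : CST := by
  intro k _ _ _ _ W' hW' F _ _ _ T hT
  rcases eq_or_ne T 0 with h0 | h0
  · exact ⟨0, by rw [h0, mp_zero']⟩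
  obtain ⟨hdeg, -, -, -, hbp, -, -⟩ := hBPF k W' hW'
  refine const_of_x hMPX T ?_
  have halg : IsAlgebraic k (xc T) := by
    by_contra hc
    have htr : Transcendental k (xc T) := hc
    obtain ⟨D, hD, -⟩ := Pool.Agent.Helper60.T3.th_DEX k F (xc T) 1 htr one_ne_zero
    have h1 := hT D
    have hbne : bp W' ≠ 0 := fun h => by
      rw [h, natDegree_zero] at hdeg
      exact absurd hdeg (by norm_num)
    have h2 : ps T ≠ 0 := by
      intro h
      have e := Pool.Agent.Helper24.SGB.ps_sq T h0
      rw [h, ← hbp F (xc T)] at e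
      exact aeval_ne htr hbne (by rw [← e]; ring)
    unfold zd at h1
    rw [hD, one_div, inv_eq_zero] at h1
    exact h2 h1
  have hint : IsIntegral k (xc T) := halg.isIntegral
  have h1 := IsAlgClosed.degree_eq_one_of_irreducible k (minpoly.irreducible hint)
  obtain ⟨a, ha⟩ := minpoly.mem_range_of_degree_eq_one k (xc T) h1
  exact ⟨a, ha.symm⟩

end Pool.Agent.Helper19.TGX
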