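import Pool.Agent.Helper60.TGX.Defs

/-!
# Project TGX (MP_a41896_nt), parts C1, C2: rigidity and descent to a number field, goals

`WL F W` is the curve over `F`, `xc`, `ps` are the coordinates `x` and `ψ = 2y + a₁x + a₃` (`xc 0 = 0`, `ps 0 = 0`, `ps P ^ 2 = Bf (xc P)` for `P ≠ 0`), `IP G P`: `P = 0` or both
coordinates are in `G`, `zd D P = D x(P) / ψ(P)`, `mp j P` the image of a point.  A point is generic (over `k`) if `xc P` is transcendental over `k`.

C1 (`k` algebraically closed).  `g : GMap W W'` is a natural map, defined at the generic points `P` of `W(F)` for all fields `F ⊇ k`, with values in `W'(F)`.  (1) a point `S` with coordinates in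
`k(P)` is `g(P)` (GMX).  (2) even and odd `g` have formulas (GFE, GFO), by degrees (CRP = PFW + PDEG) an even `g` is constant and for an odd `g`
there is `a ∈ k` with `zd D g(P) = a zd D P`; so for all `g` (`2 g(P) = (g(P) + g(-P)) + (g(P) - g(-P))`).  (3) `g(P + Q) - g(P) - g(Q)` is killed by all
derivations, so it is a constant `t`, the same for all independent `P, Q` (CST, EMB2); `g + t` is additive, odd, and has a formula.
C2.  derivations `δ` of `Ω` over `K` kill the coefficients of the normalised formula (KIL0, KIL, RHO, ALGZ); DSC: descent.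

Landed theorems which may be used everywhere (import them): `Pool.Agent.Helper92.TN.MainI`: `th_ACLA`, `th_ACLB`, `th_ACLP` (points and algebraic closures, statements in
`Helper92/TN/GoalsH.lean`); `Pool.Agent.Helper60.T3`: `th_SUBF`, `th_DADD` (`zd D` is additive), `th_DEX` (`Helper60/T3/Ind.lean`, statements in `Helper60/T3/GoalsI.lean`);
`Pool.Agent.Helper38.UQ.DERF.t`; `Pool.Agent.Helper12.SGB.th_ELAW`, `th_EDUP`; `Pool.Agent.Helper66.TG.EMB.t`, `Pool.Agent.Helper17.TG.DEC.t` (statements EMB, DEC in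
`Helper92/TG/GoalsX.lean`); the proofs of IPN, RGEN, GPQ, DER are in `Helper45/TG/IPN.lean`, `Helper35/TG/RGEN.lean`, `Helper62/TG/GPQ.lean`, `Helper91/TG/DER.lean` and are good models.
-/

set_option autoImplicit false

open Polynomial

namespace Pool.Agent.Helper19.TGX

open WeierstrassCurve
open Pool.Agent.Helper29.BL Pool.Agent.Helper42.SG
open Pool.Agent.Helper60.T3 (WL zd IP)
open Pool.Agent.Helper92.TG (mp)
open Pool.Agent.Helper60.TGX (Val AddF)

noncomputable section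

/-! ## Definitions -/

section defs

variable {k : Type} [Field k]

/-- the polynomial `4X³ + b₂X² + 2b₄X + b₆` -/
def bp (W : Affine k) : k[X] :=
  4 * X ^ 3 + C W.b₂ * X ^ 2 + 2 * C W.b₄ * X + C W.b₆

/-- `4A³ + b₂A²B + 2b₄AB² + b₆B³` -/
def hf (W : Affine k) (A B : k[X]) : k[X] :=
  4 * A ^ 3 + C W.b₂ * A ^ 2 * B + 2 * C W.b₄ * A * B ^ 2 + C W.b₆ * B ^ 3

/-- the Wronskian -/
def wr (A B : k[X]) : k[X] := derivative A * B - A * derivative B

/-- the polynomial with the coefficients `δ(a_i)` -/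
def dcf (δ : k → k) (p : k[X]) : k[X] :=
  ∑ i ∈ Finset.range (p.natDegree + 1), C (δ (p.coeff i)) * X ^ i

/-- a natural map on the generic points -/
structure GMap (W W' : Affine k) : Type 1 where
  /-- the map on the points over `F` (of interest only at generic points) -/
  f : ∀ (F : Type) [Field F] [DecidableEq F] [Algebra k F], (WL F W).Point → (WL F W').Point
  nat : ∀ (F F' : Type) [Field F] [DecidableEq F] [Algebra k F] [Field F'] [DecidableEq F']
    [Algebra k F'] (j : F →ₐ[k] F') (P : (WL F W).Point), Transcendental k (xc P) →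
    f F' (mp j P) = mp j (f F P)

/-- `g(-P) = -g(P)` -/
def GOdd {W W' : Affine k} (g : GMap W W') : Prop :=
  ∀ (F : Type) [Field F] [DecidableEq F] [Algebra k F] (P : (WL F W).Point),
    Transcendental k (xc P) → g.f F (-P) = -g.f F P

/-- `g(-P) = g(P)` -/
def GEven {W W' : Affine k} (g : GMap W W') : Prop :=
  ∀ (F : Type) [Field F] [DecidableEq F] [Algebra k F] (P : (WL F W).Point),
    Transcendental k (xc P) → g.f F (-P) = g.f F P

/-- `g(P) = 0` at all generic points -/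
def GZero {W W' : Affine k} (g : GMap W W') : Prop :=
  ∀ (F : Type) [Field F] [DecidableEq F] [Algebra k F] (P : (WL F W).Point),
    Transcendental k (xc P) → g.f F P = 0

/-- the values of `g` are given by the formula -/
def GVal {W W' : Affine k} (g : GMap W W') (A B C E : k[X]) : Prop :=
  ∀ (F : Type) [Field F] [DecidableEq F] [Algebra k F] (P : (WL F W).Point),
    Transcendental k (xc P) → Val A B C E P (g.f F P)

/-- the derivative of `g` is `a` -/
def GDer {W W' : Affine k} (g : GMap W W') (a : k) : Prop :=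
  ∀ (F : Type) [Field F] [DecidableEq F] [Algebra k F] (D : Derivation k F F)
    (P : (WL F W).Point), Transcendental k (xc P) → zd D (g.f F P) = algebraMap k F a * zd D P

/-- `g(P + Q) = g(P) + g(Q) + t` for independent points -/
def GAdd [DecidableEq k] {W W' : Affine k} (g : GMap W W') (t : (WL k W').Point) : Prop :=
  ∀ (F : Type) [Field F] [DecidableEq F] [Algebra k F] (P Q : (WL F W).Point),
    AlgebraicIndependent k ![xc P, xc Q] →
    g.f F (P + Q) = g.f F P + g.f F Q + mp (Algebra.ofId k F) t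

end defs

/-! ## Polynomials -/

/-- **BPF**: facts on `bp`, `hf`. No hypotheses.
PROOF. `bp W` has degree `3`, leading coefficient `4 ≠ 0` (characteristic `0`). `IsCoprime (bp W) (derivative (bp W))`: there are `U, V ∈ ℤ[b₂, b₄, b₆][X]` with `U bp + V bp' = c Δ`, `c ∈ ℕ`, `c ≠ 0` (resultant; the discriminant of `bp` is `16 Δ`: compare `WeierstrassCurve.twoTorsionPolynomial_disc`; the identity is also used in the landed proof of DADD), `Δ ≠ 0` (`W.IsElliptic`: `W.isUnit_Δ`), check with `W.Δ`, `W.b_relation` by `linear_combination`. So squarefree (`Polynomial.Separable.squarefree`). Values: `aeval`, `(WL F W).b₂ = algebraMap W.b₂` (`map_b₂`), `Bf W t = 4t³ + b₂t² + 2b₄t + b₆`; if `z B(x) = A(x)` then `hf(x) = 4 A(x)³ + .. = B(x)³ (4z³ + ..)`.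
`IsCoprime (hf W A B) B`: `hf = 4A³ + B (..)`, `A³` and `B` are coprime, `4` is a unit. LAST PART: `H_A := 12A² + 2b₂AB + 2b₄B²`, `H_B := b₂A² + 4b₄AB + 3b₆B²` (the partial derivatives of the form), `3 hf = H_A A + H_B B`, `hf' = H_A A' + H_B B'`, so `H_A wr = hf' B - 3 hf B'` and `H_B wr = 3 hf A' - A hf'`. If `hf = 0` then `H_A wr = H_B wr = 0`. And `H_A, H_B` are coprime: `L₁ H_A + L₂ H_B = c Δ A³`, `L₃ H_A + L₄ H_B = c Δ B³` for linear forms `L_i` in `A, B` (see PFW), and `A³, B³` are coprime. So `wr = 0`. -/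
def BPF : Prop :=
  ∀ (k : Type) [Field k] [CharZero k] (W : Affine k), W.IsElliptic →
    (bp W).natDegree = 3 ∧ (bp W).leadingCoeff = 4 ∧ IsCoprime (bp W) (derivative (bp W)) ∧
    Squarefree (bp W) ∧ (∀ (F : Type) [Field F] [Algebra k F] (x : F),
      aeval x (bp W) = Bf (WL F W) x) ∧
    (∀ (F : Type) [Field F] [Algebra k F] (x z : F) (A B : k[X]), z * aeval x B = aeval x A →
      aeval x (hf W A B) = Bf (WL F W) z * aeval x B ^ 3) ∧
    ∀ A B : k[X], IsCoprime A B → IsCoprime (hf W A B) B ∧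
      (hf W A B = 0 → wr A B = 0)

/-- **PFW**: the Wronskian is divisible by `M C`. No hypotheses.
PROOF. `h := hf W' A B`. (0) `h` and `B` are coprime (`h = 4A³ + B(..)`). `H_A := 12A² + 2b₂AB + 2b₄B²`, `H_B := b₂A² + 4b₄AB + 3b₆B²` (`b_i` of `W'`): `3h = H_A A + H_B B`, `h' = H_A A' + H_B B'`, so, `w := wr A B`: `H_A w = h'B - 3hB'`, `H_B w = 3hA' - Ah'` (`ring`). `IsCoprime H_A H_B`: with `(p₀, p₁, p₂) = (12, 2b₂, 2b₄)`, `(q₀, q₁, q₂) = (b₂, 4b₄, 3b₆)`, `D := p₁q₂ - q₁p₂`, `s := q₂p₀ - p₂q₀`, `t := q₂p₁ - p₂q₁ = D`: `u₁ := q₂ D`, `v₁ := -p₂ D`, `u₀ := q₁ t - q₂ s`, `v₀ := p₂ s - p₁ t`: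
`(u₀A + u₁B) H_A + (v₀A + v₁B) H_B = (u₀p₀ + v₀q₀) A³` and `u₀p₀ + v₀q₀ = c Δ`, `c ≠ 0` an integer (check by `ring_nf`/`linear_combination` with `W'.b_relation`; `b₈` from `4b₈ = b₂b₆ - b₄²`); symmetric formula for `B³`; (if you prefer: a common irreducible factor of `H_A, H_B` divides ..).
(1) reduce to `IsCoprime C E`: `d := gcd C E`, `C = d C₁`, `E = d E₁`, `d ≠ 0`; if `w E₁ = N B² C₁` then `w E = N B² C`; the equation is divided by `d²`. (2) `B³ ∣ E² h` and `B³` coprime to `h`: `B³ ∣ E²`: `E² = B³ e`. Then `e h = C² β`, `e ∣ E²` is coprime to `C²`: `e ∣ β`, `β = e g`, `h = C² g`, `e` squarefree. `B² ∣ E²` so `B ∣ E` (`pow_dvd_pow_iff`), `E = B H`, `H² = B e`; `e ∣ H²`, `e` squarefree: `e ∣ H` (`Squarefree.dvd_of_dvd_pow`-type), `H = e M`; so `B = e M²`, `E = e² M³`.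
(3) `M ∣ B, B'` (`B' = e'M² + 2eMM'`), so `M ∣ w`. `C ∣ h, h'` (`h' = 2CC'g + C²g'`), so `C ∣ H_A w`, `C ∣ H_B w`, so `C ∣ w`. `M, C` are coprime (`M ∣ E`). So `w = N M C`, and `w E = N M C e²M³ = N C (eM²)² = N B² C`. -/
def PFW : Prop :=
  ∀ (k : Type) [Field k] [CharZero k] (W' : Affine k), W'.IsElliptic → ∀ A B C E β : k[X],
    IsCoprime A B → B ≠ 0 → E ≠ 0 → Squarefree β → E ^ 2 * hf W' A B = C ^ 2 * β * B ^ 3 →
    ∃ N : k[X], wr A B * E = N * (B ^ 2 * C)

/-- **PDEG**: degrees. No hypotheses (BPF may be used).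
PROOF. `w := wr A B ≠ 0`, so `A ≠ 0`. `α := deg A`, `b := deg B`. (1) `b < α`: in `h = 4A³ + b₂A²B + 2b₄AB² + b₆B³` the first term has the largest degree: `deg h = 3α`; `deg w ≤ α + b - 1` (`derivative` lowers the degree; if `b = 0`: `w = A'B`, also `≤ α - 1`). `2(α + b - 1) + 3 ≤ b + 3α` as `b + 1 ≤ α`. (2) `α ≤ b`: `r := coeff A b / leadingCoeff B`, `A₁ := A - r B`, `wr A₁ B = w`, so `A₁ ≠ 0`; `α₁ := deg A₁ < b` (so `b ≥ 1`). `deg w ≤ α₁ + b - 1`. Taylor: `h = 4A₁³ + c₂ A₁²B + c₁ A₁B² + c₀ B³` with `c₀ = eval r (bp W')`, `c₁ = eval r (bp W')'` (`ring`). If `c₀ ≠ 0`: `deg h = 3b ≥ α₁ + 2b`.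
If `c₀ = 0` then `c₁ ≠ 0` (BPF: `bp` and `bp'` are coprime) and `deg h = α₁ + 2b`. In both cases `2 (α₁ + b - 1) + 3 ≤ b + α₁ + 2b` as `α₁ + 1 ≤ b`. -/
def PDEG : Prop :=
  ∀ (k : Type) [Field k] [CharZero k] [IsAlgClosed k] (W' : Affine k), W'.IsElliptic →
    ∀ A B : k[X], B ≠ 0 → wr A B ≠ 0 →
    2 * (wr A B).natDegree + 3 ≤ B.natDegree + (hf W' A B).natDegree

/-- **CRP**. Hypotheses allowed: PFW, PDEG, BPF.
PROOF. PFW: `w E = N B² C`. If `N ≠ 0` and `C ≠ 0`: `w ≠ 0`. Degrees: `deg w + deg E = deg N + 2 deg B + deg C`, `2 deg E + deg h = 2 deg C + deg β + 3 deg B` (`h ≠ 0`, `β ≠ 0`: if `h = 0` then `w = 0` by BPF). So `2 deg N = 2 deg w + deg β - deg B - deg h`, and PDEG. If `C = 0` then `h = 0` (`E ≠ 0`), `w = 0` (BPF): take `N = 0`. -/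
def CRP : Prop :=
  ∀ (k : Type) [Field k] [CharZero k] [IsAlgClosed k] (W' : Affine k), W'.IsElliptic →
    ∀ A B C E β : k[X], IsCoprime A B → B ≠ 0 → E ≠ 0 → Squarefree β →
    E ^ 2 * hf W' A B = C ^ 2 * β * B ^ 3 →
    ∃ N : k[X], wr A B * E = N * (B ^ 2 * C) ∧ (N ≠ 0 → 2 * N.natDegree + 3 ≤ β.natDegree)

/-! ## Points -/

/-- **PTS**: points. No hypotheses. (Compare `pt_eq` in `Helper19/TG/PRM.lean`, `ps_sq` in `Helper24/SGB/ELAW.lean`.)
PROOF. `y := (ψ - a₁x - a₃)/2`; the equation of `W` times `4` is `(2y + a₁x + a₃)² = Bf W x`; nonsingular because `Δ ≠ 0` (`Affine.equation_iff_nonsingular` for elliptic `W`). `P = some x y`, `xc P = x`, `ps P = 2y + a₁x + a₃` determine `x, y`. `neg`: `-(x, y) = (x, -y - a₁x - a₃)`. -/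
def PTS : Prop :=
  ∀ (F : Type) [Field F] [CharZero F] [DecidableEq F] (W : Affine F), W.IsElliptic →
    (∀ x ψ : F, ψ ^ 2 = Bf W x → ∃ P : W.Point, P ≠ 0 ∧ xc P = x ∧ ps P = ψ) ∧
    (∀ P Q : W.Point, P ≠ 0 → Q ≠ 0 → xc P = xc Q → ps P = ps Q → P = Q) ∧
    ∀ P : W.Point, xc (-P) = xc P ∧ ps (-P) = -ps P

/-- **MPX**: images of points. No hypotheses.
PROOF. `Affine.Point.map_zero`, `map_some`; `ps` is `2y + a₁x + a₃` with the coefficients in `k`. Injective: `Affine.Point.map_injective`. Last part: `R = 0`, or `R = some x y`, `x = j x₀`, `ps R = j p`, so `y = j ((p - a₁x₀ - a₃)/2)` (characteristic `0`); nonsingular at `(x₀, y₀)` because `j` is injective (`Affine.map_nonsingular`-type lemma). Model: IPN (`Helper45/TG/IPN.lean`), SUBF. -/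
def MPX : Prop :=
  ∀ (k : Type) [Field k] [CharZero k] (W : Affine k) (F F' : Type) [Field F] [DecidableEq F]
    [Algebra k F] [Field F'] [DecidableEq F'] [Algebra k F'] (j : F →ₐ[k] F')
    (P : (WL F W).Point), xc (mp j P) = j (xc P) ∧ ps (mp j P) = j (ps P) ∧
      (mp j P = 0 ↔ P = 0) ∧
      ∀ R : (WL F' W).Point, IP (Set.range j) R → ∃ R₀ : (WL F W).Point, mp j R₀ = R

/-- **IN1**. No hypotheses (PTS may be used). Model: the proof of GPQ (`Helper62/TG/GPQ.lean`).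
PROOF. `L := AlgebraicClosure (FractionRing (MvPolynomial (Fin 2) k))`, `X, Y` the variables; points `P, Q` with `xc P = X`, `xc Q = Y` (square roots of `Bf` exist, PTS). `![X, Y]` is independent over `k`; `FractionRing (MvPolynomial (Fin 2) k)` is generated by `X, Y` as a field over `k`, so its image is in `adjoin k {X, Y}` and every `z` is algebraic over it. -/
def IN1 : Prop :=
  ∀ (k : Type) [Field k] [CharZero k] (W : Affine k), W.IsElliptic →
    ∃ (L : Type) (_ : Field L) (_ : IsAlgClosed L) (_ : DecidableEq L) (_ : Algebra k L)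
      (P Q : (WL L W).Point), AlgebraicIndependent k ![xc P, xc Q] ∧
      ∀ z : L, IsAlgebraic (IntermediateField.adjoin k ({xc P, xc Q} : Set L)) z

/-- **IN2**. No hypotheses. Landed: `th_ACLA`, `th_ACLB`, `th_ACLP`. Model: GPQ.
PROOF. First two: components of an independent family (`AlgebraicIndependent.transcendental`). Replace `F` by `AlgebraicClosure F` (independence over `k` is preserved and reflected by injective maps, `xc (mp j P) = j (xc P)`). `acl k {a, b}` has dimension `2` for `a = xc P, b = xc Q` independent. If `u := xc (P + Q)` were algebraic over `k(xc P)` [`xc (-P) = xc P`] then `P + Q` and `P` have coordinates in `acl k {xc P}` (ACLP (1)), so has `Q = (P + Q) - P` (ACLP (3)), so `xc Q ∈ acl k {xc P}`: contradiction to independence (ACLB (1)). If `xc P` were algebraic over `k(u)`: then `xc P ∈ acl k {u}`, so `P`, `P + Q`, `Q` have coordinates in `acl k {u}`, so `xc P, xc Q ∈ acl k {u}`: contradiction (ACLB (2): two independent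 elements in `acl k {u}`).
ACLB (1) for `![u, xc P]`. `u` transcendental: component. -/
def IN2 : Prop :=
  ∀ (k : Type) [Field k] [CharZero k] (W : Affine k), W.IsElliptic → ∀ (F : Type) [Field F]
    [DecidableEq F] [Algebra k F] (P Q : (WL F W).Point), AlgebraicIndependent k ![xc P, xc Q] →
    Transcendental k (xc P) ∧ Transcendental k (xc Q) ∧ Transcendental k (xc (P + Q)) ∧
      AlgebraicIndependent k ![xc (P + Q), xc (-P)]

/-- **IN3**. No hypotheses (PTS may be used).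
PROOF. `F' := AlgebraicClosure (RatFunc F)`, `j` the inclusion, `Q` a point with `xc Q =` the variable `X`, which is transcendental over `F`. `xc (mp j P) = j (xc P)` transcendental over `k`, and `X` is transcendental over the image of `F`, so over `k(j (xc P))`: `AlgebraicIndependent k ![j (xc P), X]` (`algebraicIndependent` with `Fin.cons`/`Option`; or ACLB (3), (1)). -/
def IN3 : Prop :=
  ∀ (k : Type) [Field k] [CharZero k] (W : Affine k), W.IsElliptic → ∀ (F : Type) [Field F]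
    [DecidableEq F] [Algebra k F] (P : (WL F W).Point), Transcendental k (xc P) →
    ∃ (F' : Type) (_ : Field F') (_ : DecidableEq F') (_ : Algebra k F') (j : F →ₐ[k] F')
      (Q : (WL F' W).Point), AlgebraicIndependent k ![xc (mp j P), xc Q]

/-- **EMB2**: embeddings with given images of two independent points. No hypotheses. Landed: EMB (`Pool.Agent.Helper66.TG.EMB.t : Pool.Agent.Helper92.TG.EMB`), ACLA, ACLB, ACLP.
PROOF. `x := xc P`, `y := xc Q`, `x', y'`. `k(x, y) ≅ k(x', y')` over `k` (`AlgebraicIndependent.aevalEquivField` or fraction fields of `MvPolynomial (Fin 2) k`), `F` is algebraic over `k(x, y)`: `IsAlgClosed.lift` gives `j₀ : F →ₐ[k] F'` with `j₀ x = x'`, `j₀ y = y'`. `ps ^ 2 = Bf (xc)`, so `j₀ (ps P) = ± ps P'`, `j₀ (ps Q) = ± ps Q'`. SIGNS: there is `σ₁ : F →ₐ[k] F` with `σ₁ x = x`, `σ₁ (ps P) = - ps P`, `σ₁ y = y`, `σ₁ (ps Q) = ps Q`: let `κ := acl k {y}` (an intermediate field; `ps Q ∈ κ` by ACLP (1), or because `ps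 Q ^ 2 = Bf y`), `x` is transcendental over `κ` (independence) and `F` is algebraic over `κ(x)`.
EMB over `κ` for the curve `WL κ W` (`WL F (WL κ W)` is `WL F W` by `rfl`, because `(algebraMap κ F).comp (algebraMap k κ) = algebraMap k F` is `rfl`), `F' := F`, `P' := -P`: `σ₁ : F →ₐ[κ] F` with `mp σ₁ P = -P`; restrict the scalars to `k`. In the same way `σ₂`. Compose `j₀` with `σ₁`, `σ₂` according to the signs. A point `≠ 0` is determined by `xc`, `ps`. -/
def EMB2 : Prop :=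
  ∀ (k : Type) [Field k] [CharZero k] (W : Affine k), W.IsElliptic → ∀ (F F' : Type) [Field F]
    [IsAlgClosed F] [DecidableEq F] [Algebra k F] [Field F'] [IsAlgClosed F'] [DecidableEq F']
    [Algebra k F'] (P Q : (WL F W).Point) (P' Q' : (WL F' W).Point),
    AlgebraicIndependent k ![xc P, xc Q] → AlgebraicIndependent k ![xc P', xc Q'] →
    (∀ z : F, IsAlgebraic (IntermediateField.adjoin k ({xc P, xc Q} : Set F)) z) →
    ∃ j : F →ₐ[k] F', mp j P = P' ∧ mp j Q = Q'

/-- **CST**: a point which is killed by all derivations is constant. No hypotheses (PTS, MPX may be used). Landed: `th_DEX`.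
PROOF. `T = 0`: `t = 0`. `T ≠ 0`: if `xc T` is transcendental over `k` then DEX (`κ := k`, `L := F`, `x := xc T`, `v := 1`) gives `D` with `D (xc T) = 1`; `ps T ≠ 0` (`ps T ^ 2 = Bf (xc T)`, a nonzero polynomial over `k` in a transcendental element), so `zd D T = 1 / ps T ≠ 0`: contradiction. So `xc T` is algebraic over `k`, so in the range of `k` (`IsAlgClosed.algebraMap_bijective_of_isIntegral`-type), `ps T ^ 2` is too, so `ps T` is algebraic over `k`, in the range of `k`. MPX last part (`j = Algebra.ofId k F`, `IP (Set.range j) T`). -/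
def CST : Prop :=
  ∀ (k : Type) [Field k] [CharZero k] [IsAlgClosed k] [DecidableEq k] (W' : Affine k),
    W'.IsElliptic → ∀ (F : Type) [Field F] [DecidableEq F] [Algebra k F] (T : (WL F W').Point),
    (∀ D : Derivation k F F, zd D T = 0) →
    ∃ t : (WL k W').Point, mp (Algebra.ofId k F) t = T

/-! ## Natural maps -/

/-- **GMX**: a point over `k(P)` is the value of a natural map. No hypotheses (PTS, MPX may be used). Landed: EMB (`Pool.Agent.Helper66.TG.EMB.t`).
PROOF. `G := IntermediateField.adjoin k {xc P, ps P}`. `P = mp G.val P_G`, `S = mp G.val S_G` (MPX; `Classical.decEq G`). (1) EXISTENCE: for every `F₁ ⊇ k` and generic `P₁ ∈ W(F₁)` there is `i : G →ₐ[k] F₁` with `mp i P_G = P₁`: let `Ḡ` be an algebraic closure of `G`, `F̄₁` of `F₁`; EMB for `Ḡ, F̄₁` (every element of `Ḡ` is algebraic over `k(xc P)`: `G` is, because `ps P` is): `j : Ḡ → F̄₁`, image of `P_G` ↦ image of `P₁`. The image of `G` is generated by `j x, j ψ`, which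 are the images of `xc P₁, ps P₁ ∈ F₁`,
so it is in the image of `F₁` (`IntermediateField.adjoin_map`, or induction `IntermediateField.adjoin_induction`): `i` exists (`AlgHom.codRestrict` to `AlgHom.fieldRange (F₁ → F̄₁)` and the inverse of `AlgEquiv.ofInjectiveField`). (2) UNIQUE: two `k`-embeddings `i, i' : G → F₁` with `mp i P_G = mp i' P_G` agree on `xc P, ps P`, so are equal (`IntermediateField.algHom_ext_of_eq_adjoin` or `AlgHom.ext` + adjoin induction). (3) `g.f F₁ P₁ := mp i S_G` (choice; `0` if `P₁` is not generic). `nat`: `j ∘ i` is an embedding for `mp j P₁` (generic: `xc (mp j P₁) = j (xc P₁)`), so by (2) it is the chosen one;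
`Affine.Point.map_map`. `g.f F P = mp G.val S_G = S` by (2). -/
def GMX : Prop :=
  ∀ (k : Type) [Field k] [CharZero k] (W W' : Affine k), W.IsElliptic → ∀ (F : Type) [Field F]
    [DecidableEq F] [Algebra k F] (P : (WL F W).Point) (S : (WL F W').Point),
    Transcendental k (xc P) →
    IP (IntermediateField.adjoin k ({xc P, ps P} : Set F) : Set F) S →
    ∃ g : GMap W W', g.f F P = S

/-- **GFO**: the formula of an odd map. No hypotheses (PTS, MPX, BPF may be used). Landed: EMB, DEC (`Pool.Agent.Helper17.TG.DEC.t`). MODEL: the landed proof of RGEN, `Pool/Agent/Helper35/TG/RGEN.lean` (the same proof with `g` instead of `ρ`).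
PROOF. `F₀ := AlgebraicClosure (RatFunc k)`, `x₀` the variable, `P₀` a point with `xc P₀ = x₀`. EMB (`F = F' = F₀`, `P' = -P₀`): `σ : F₀ →ₐ[k] F₀` with `mp σ P₀ = -P₀`. `G := k(x₀, ψ₀)`, `P₀ = mp G.val P_G`, so `g.f F₀ P₀ = mp G.val (g.f G P_G)` has coordinates in `G`. `g(P₀) = 0`: then `g(P) = 0` for all generic `P` (embed into `AlgebraicClosure F`, EMB `j : F₀ → F̄` with `mp j P₀ =` the image of `P`, `nat`, `mp` is injective): `GZero`. Otherwise `σ (xc g(P₀)) = xc (g(-P₀)) = xc (-g(P₀)) = xc g(P₀)`, `σ (ps g(P₀)) = - ps g(P₀)`. DEC: `A, B, C, E` with `IsCoprime A B`, `B ≠ 0`, `E ≠ 0`, `xc g(P₀) B(x₀) = A(x₀)`, `ps g(P₀) E(x₀) = C(x₀) ψ₀`.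
All generic points: as in RGEN (EMB into `AlgebraicClosure F`; `Val` is transported by embeddings, in both directions). The identity: at `x₀`: `z := xc g(P₀)`: `ps g(P₀)² = Bf z`, so `C² ψ₀² = E² Bf z` at `x₀`, times `B³`, `ψ₀² = bp(x₀)`, `Bf z B³ = hf(x₀)` (BPF): `E² hf = C² bp B³` at the transcendental `x₀`, so as polynomials. -/
def GFO : Prop :=
  ∀ (k : Type) [Field k] [CharZero k] (W W' : Affine k), W.IsElliptic → W'.IsElliptic →
    ∀ g : GMap W W', GOdd g → GZero g ∨ ∃ A B C E : k[X], IsCoprime A B ∧ B ≠ 0 ∧ E ≠ 0 ∧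
      GVal g A B C E ∧ E ^ 2 * hf W' A B = C ^ 2 * bp W * B ^ 3

/-- **GFE**: even maps are constant. Hypotheses allowed: CRP, BPF, PTS, MPX. Landed: EMB, DEC. Model: RGEN (`Helper35/TG/RGEN.lean`).
PROOF. `F₀, x₀, P₀, σ` as in GFO. If `g(P₀) = 0`: `t = 0` (as in GFO: `g = 0` at all generic points). Otherwise `σ` fixes `xc g(P₀)` and `ps g(P₀)` (`g(-P₀) = g(P₀)`), both in `k(x₀, ψ₀)` . DEC, first part, twice: `xc g(P₀) B(x₀) = A(x₀)`, `ps g(P₀) E(x₀) = C(x₀)`, `IsCoprime A B`, `B ≠ 0`, `E ≠ 0`. `ps g(P₀)² = Bf (xc g(P₀))` gives `E² hf W' A B = C² * 1 * B³` at `x₀`, so as polynomials. CRP with `β = 1`: `wr A B * E = N * (B² C)` and `N = 0` (otherwise `2 deg N + 3 ≤ 0`). So `wr A B = 0`: `B ∣ A B'`.. `B ∣ B'` (coprime), `B' = 0`, `B` is a constant (characteristic `0`), `A' = 0`, `A` is a constant: `xc g(P₀) ∈ k`,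
`ps g(P₀) ^ 2 ∈ k`, so `ps g(P₀) ∈ k` (`k` algebraically closed). MPX: `g(P₀) = mp (Algebra.ofId k F₀) t`. All generic points `P` of `W(F)`: `F̄ := AlgebraicClosure F`, EMB: `j : F₀ → F̄` with `mp j P₀ = P̄`, so `g(P̄) = mp j (mp ofId t) = mp ofId t`, and `P̄` is the image of `P`, `mp` is injective. -/
def GFE : Prop :=
  ∀ (k : Type) [Field k] [CharZero k] [IsAlgClosed k] [DecidableEq k] (W W' : Affine k),
    W.IsElliptic → W'.IsElliptic → ∀ g : GMap W W', GEven g → ∃ t : (WL k W').Point,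
    ∀ (F : Type) [Field F] [DecidableEq F] [Algebra k F] (P : (WL F W).Point),
      Transcendental k (xc P) → g.f F P = mp (Algebra.ofId k F) t

/-- **GDR**: the derivative of a natural map. Hypotheses allowed: GFO, GFE, CRP, BPF, PTS, MPX. Landed: `th_DADD`. Model: DIF (`Helper43/TG/DIF.lean`).
PROOF. `n : (WL F W).Point → ` negation is compatible with `mp` (a homomorphism). `g₊(P) := g(P) + g(-P)`, `g₋(P) := g(P) - g(-P)` are natural (`GMap`; `-P` is generic), even, odd. GFE: `g₊(P) = mp ofId t`, so `zd D g₊(P) = 0` (`D` kills `k`, `xc (mp ofId t) = algebraMap (xc t)`). `g₋`: if `GZero` then `zd D g₋(P) = 0`, `a₁ := 0`. Otherwise GFO: `A, B, C, E`, CRP with `β = bp W` (squarefree, degree `3`, BPF): `wr A B * E = N * (B² C)`, `N = 0` or `2 deg N + 3 ≤ 3`: `N = C a₁`, `a₁ ∈ k`. CLAIM `zd D g₋(P) = a₁ zd D P`: `x := xc P`, `u := xc g₋(P)`, `u B(x) = A(x)`; apply `D` (`D (aeval x A) = aeval x A' * D x`, `Derivation.map_aeval`) and multiply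 by `B(x)`: `D u B(x)² = w(x) D x`, `w := wr A B`.
`v := ps g₋(P)`, `v E(x) = C(x) ψ`, `ψ := ps P ≠ 0` (`ψ² = bp(x) ≠ 0`), `B(x), E(x) ≠ 0`. If `C = 0`: `v = 0` and `w E = 0`, `w = 0`: `zd D g₋(P) = D u / 0 = 0`; and then choose `a₁ = 0`. If `C ≠ 0`: `v ≠ 0`, `D u / v = w(x) D x E(x) / (B(x)² C(x) ψ) = a₁ D x / ψ`. Finally `2 g(P) = g₊(P) + g₋(P)` (`g(P) + g(P)`), DADD: `2 zd D g(P) = a₁ zd D P`, `a := a₁ / 2`. -/
def GDR : Prop :=
  ∀ (k : Type) [Field k] [CharZero k] [IsAlgClosed k] (W W' : Affine k), W.IsElliptic →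
    W'.IsElliptic → ∀ g : GMap W W', ∃ a : k, GDer g a

/-- **GAD**: `g(P + Q) = g(P) + g(Q) + t`. Hypotheses allowed: CST, EMB2, IN1, IN2, PTS, MPX. Landed: `th_DADD`.
PROOF. For independent `P, Q ∈ W(F)`: `P, Q, P + Q` are generic (IN2). `T(P, Q) := g(P + Q) - g(P) - g(Q)`: `zd D T = a (zd D (P + Q) - zd D P - zd D Q) = 0` for all derivations over `k` (DADD for `W'` and for `W`; `zd D (-S) = - zd D S`), so `T(P, Q) = mp ofId t_(P,Q)` (CST). `L₀, P₀, Q₀` of IN1, `t := t_(P₀, Q₀)`. For `F, P, Q`: `F̄ := AlgebraicClosure F`, `i : F → F̄`; EMB2: `j : L₀ →ₐ[k] F̄`, `mp j P₀ = mp i P`, `mp j Q₀ = mp i Q`. `nat` and `mp` additive: `mp i (T(P, Q)) = T(mp i P, mp i Q) = mp j (T(P₀, Q₀)) = mp j (mp ofId t) = mp ofId t = mp i (mp ofId t)`; `mp i` is injective: `T(P, Q) = mp ofId t`. -/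
def GAD : Prop :=
  ∀ (k : Type) [Field k] [CharZero k] [IsAlgClosed k] [DecidableEq k] (W W' : Affine k),
    W.IsElliptic → W'.IsElliptic → ∀ (g : GMap W W') (a : k), GDer g a →
    ∃ t : (WL k W').Point, GAdd g t

/-- **C1A**: an additive map is odd. Hypotheses allowed: IN2, IN3, MPX, PTS.
PROOF. `mp ofId 0 = 0`. `P ∈ W(F)` generic; IN3: `F', j, Q`, `P' := mp j P`, `P', Q` independent. `g(P' + Q) = g(P') + g(Q)`. IN2: `P' + Q, -P'` are independent, so `g(Q) = g((P' + Q) + (-P')) = g(P' + Q) + g(-P')`. So `g(-P') = -g(P')`; `-P' = mp j (-P)`, `nat` (`-P` is generic), `mp j` is injective: `g(-P) = -g(P)`. -/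
def C1A : Prop :=
  ∀ (k : Type) [Field k] [CharZero k] [IsAlgClosed k] [DecidableEq k] (W W' : Affine k),
    W.IsElliptic → W'.IsElliptic → ∀ (g : GMap W W'), GAdd g 0 → GOdd g

/-! ## C2 -/

/-- **DCF**: the derivation on the coefficients. No hypotheses.
PROOF. coefficients: `Polynomial.finset_sum_coeff`, `coeff_C_mul_X_pow`; for `i > natDegree` both sides are `0` (`δ 0 = 0`). The other parts by comparing coefficients (`coeff_mul`, Leibniz, `map_sum`), `δ (algebraMap c) = 0`; `δ (n z) = n δ z` for natural numbers `n`. -/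
def DCF : Prop :=
  ∀ (K Ω : Type) [Field K] [Field Ω] [Algebra K Ω] (δ : Derivation K Ω Ω),
    (∀ (p : Polynomial Ω) (i : ℕ), (dcf δ p).coeff i = δ (p.coeff i)) ∧
    (∀ p q : Polynomial Ω, dcf δ (p + q) = dcf δ p + dcf δ q) ∧
    (∀ p q : Polynomial Ω, dcf δ (p * q) = dcf δ p * q + p * dcf δ q) ∧
    (∀ p : K[X], dcf δ (p.map (algebraMap K Ω)) = 0) ∧
    (∀ p : Polynomial Ω, derivative (dcf δ p) = dcf δ (derivative p)) ∧
    ∀ z : Ω, dcf δ (C z) = C (δ z)

/-- **RHO**: the differential equation `ρ' β + ρ β'/2 = a/2` has no rational solution `ρ = N/M ≠ 0`. No hypotheses.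
PROOF. Suppose `N ≠ 0`. Divide by the gcd: `N = d U`, `M = d V`, `U, V` coprime; `wr N M = d² wr U V`, so `2 (U'V - UV') β + UVβ' = a V²`. (1) `V` is constant: otherwise `V(r) = 0` for some `r ∈ Ω` (algebraically closed), `V = (X - r)^m V₁`, `m ≥ 1`, `V₁(r) ≠ 0`, `U(r) ≠ 0`. `V' = m (X-r)^(m-1) V₁ + (X-r)^m V₁'`. Divide the equation by `(X-r)^(m-1)`: `2U'(X-r)V₁β - 2U(mV₁ + (X-r)V₁')β + U(X-r)V₁β' = a (X-r)^(m+1) V₁²`; at `r`: `-2 m U(r)V₁(r)β(r) = 0`: `β(r) = 0`, `β = (X-r) β₁`, `β₁(r) ≠ 0` (squarefree). Divide by `(X-r)` again: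
`2U'(X-r)V₁β₁ - 2U(mV₁ + (X-r)V₁')β₁ + UV₁(β₁ + (X-r)β₁') = a (X-r)^m V₁²`; at `r` (`m ≥ 1`): `(1 - 2m) U(r)V₁(r)β₁(r) = 0`, contradiction (`2m ≠ 1`). (2) `V = c ≠ 0` constant: `2U'β + Uβ' = a c`, `u := deg U`: the coefficient at `X^(u+2)` of the left side is `(2u + 3) lc(U) lc(β) ≠ 0`, of the right side `0`: contradiction. -/
def RHO : Prop :=
  ∀ (Ω : Type) [Field Ω] [CharZero Ω] [IsAlgClosed Ω] (β N M : Polynomial Ω) (a : Ω),
    β.natDegree = 3 → Squarefree β → M ≠ 0 →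
    2 * wr N M * β + N * M * derivative β = C a * M ^ 2 → N = 0

/-- **ALGZ**. No hypotheses. Landed: `th_DEX`, `th_ACLA` (or DERF: `Pool.Agent.Helper38.UQ.DERF.t`).
PROOF. Suppose `z` is transcendental over `K`. `κ := acl K ∅ ⊆ Ω` is algebraically closed (ACLA), its elements are algebraic over `K`, so `z` is transcendental over `κ`. DEX (`v = 1`): `D : Derivation κ Ω Ω` with `D z = 1`; restrict the scalars to `K` (`Derivation.restrictScalars`): contradiction. (`acl K S` is defined in `Helper92/TN/GoalsH.lean`.) -/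
def ALGZ : Prop :=
  ∀ (K Ω : Type) [Field K] [CharZero K] [Field Ω] [IsAlgClosed Ω] [Algebra K Ω] (z : Ω),
    (∀ δ : Derivation K Ω Ω, δ z = 0) → IsAlgebraic K z

/-- **PID**: the identity of an additive formula. Hypotheses allowed: BPF, PTS.
PROOF. `F := AlgebraicClosure (RatFunc k)`, `P` a point with `xc P = x` the variable; `AddF.ex`: `R` with `Val`. `ps R ^ 2 = Bf (xc R)`, `xc R B(x) = A(x)`, `ps R E(x) = C(x) ps P`, `ps P ^ 2 = bp(x)`: `E(x)² hf(x) = E(x)² Bf(xc R) B(x)³ = C(x)² bp(x) B(x)³` (BPF), and `x` is transcendental. `C ≠ 0`: otherwise `E² hf = 0`, `hf = 0`, `wr A B = 0` (BPF, last part), but `wr A B ≠ 0` is `AddF.nc`. -/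
def PID : Prop :=
  ∀ (k : Type) [Field k] [CharZero k] (W W' : Affine k), W.IsElliptic → W'.IsElliptic →
    ∀ A B C E : k[X], AddF W W' A B C E →
      E ^ 2 * hf W' A B = C ^ 2 * bp W * B ^ 3 ∧ C ≠ 0

/-- **NRM**: normalisation. Hypothesis allowed: IN2. (`[DecidableEq]` by `classical`.)
PROOF. `B₁ := C b⁻¹ * B`, `A₁ := C b⁻¹ * A`, `b := leadingCoeff B ≠ 0`. `C = d C₀`, `E = d E₀`, `C₀, E₀` coprime, `d ≠ 0` (`EuclideanDomain.gcd`), `E₁ := C e⁻¹ * E₀`, `C₁ := C e⁻¹ * C₀`, `e := leadingCoeff E₀`. `Val A B C E P R ↔ Val A₁ B₁ C₁ E₁ P R` for generic `P` (multiply by the nonzero elements `b⁻¹`, `e⁻¹`, `aeval (xc P) d ≠ 0`). `AddF`: `cop`, `hB`, `hE`, `nc` (`wr A₁ B₁ = C b⁻² wr A B`), `ex`, `add` (`P`, `Q` and `P + Q` are generic: IN2 may be used as a hypothesis for `P + Q`). -/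
def NRM : Prop :=
  ∀ (k : Type) [Field k] [CharZero k] (W W' : Affine k), W.IsElliptic → W'.IsElliptic →
    ∀ A B C E : k[X], AddF W W' A B C E → ∃ A₁ B₁ C₁ E₁ : k[X], AddF W W' A₁ B₁ C₁ E₁ ∧
      B₁.Monic ∧ E₁.Monic ∧ IsCoprime C₁ E₁ ∧ A * B₁ = A₁ * B ∧ C * E₁ = C₁ * E

/-- **KIL0**: derivations of `Ω` over `K` kill `A/B`. Hypotheses allowed: DCF, RHO, BPF.
PROOF. (helper92.) `A^δ := dcf δ A` etc., `β := bp (WL Ω W)`, `w := wr A B`, `H := hf (WL Ω W') A B`, `n := A^δ B - A B^δ`. `dcf δ β = 0`, `dcf δ` of the coefficients of `H` is `0` (`WL Ω W' = W'.map`, coefficients in `K`): `H^δ = H_A A^δ + H_B B^δ`, `H' = H_A A' + H_B B'`, `H_A = 12A² + 2b₂AB + 2b₄B²`, `H_B = b₂A² + 4b₄AB + 3b₆B²`, `3H = H_A A + H_B B`, so `B H' = H_A w + 3HB'`, `B H^δ = H_A n + 3HB^δ`. Let (I): `a² B H = w² β`. (I)': `a² (B'H + BH') = 2ww'β + w²β'`. (I)^δ: `2a δ(a) BH + a² (B^δ H + BH^δ) = 2 w w^δ β`, `w^δ = n' - 2A^δB' + 2A'B^δ`.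
CLAIM: `2 (n'w - nw') β - n w β' = 2ww^δβ - a² (B^δH + BH^δ)` (multiply by `w`, insert (I)', (I): both sides agree by `ring` after the substitution, `w ≠ 0`). Hence, times `a β`, with (I)^δ, (I): `2 wr (a n) (w β) β + (a n)(w β) β' = 2 δ(a) (w β)²`. RHO with `N = C a * n`, `M = w β`: `a n = 0`, `n = 0`: `A^δ B = A B^δ`. `A, B` coprime: `B ∣ B^δ`; `B` monic: `deg B^δ < deg B` (`δ 1 = 0`) so `B^δ = 0`, and `A^δ B = 0`, `A^δ = 0`. DCF: coefficients. -/
def KIL0 : Prop :=
  ∀ (K Ω : Type) [Field K] [CharZero K] [Field Ω] [IsAlgClosed Ω] [Algebra K Ω]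
    (W W' : Affine K), W.IsElliptic → W'.IsElliptic → ∀ (A B : Polynomial Ω) (a : Ω),
    IsCoprime A B → B.Monic → wr A B ≠ 0 → a ≠ 0 →
    C (a ^ 2) * B * hf (WL Ω W') A B = wr A B ^ 2 * bp (WL Ω W) →
    ∀ δ : Derivation K Ω Ω, ∀ i : ℕ, δ (A.coeff i) = 0 ∧ δ (B.coeff i) = 0

/-- **KIL**. Hypotheses allowed: KIL0, PID, CRP, BPF, DCF.
PROOF. PID for the curves over `Ω`: `E² h = C² β B³` (`h := hf (WL Ω W') A B`, `β := bp (WL Ω W)`), `C ≠ 0`. CRP (`β` squarefree of degree `3`): `w E = N B² C` and (`N ≠ 0`, because `w ≠ 0`) `deg N = 0`: `N = C a`, `a ≠ 0`. So `a² C² B⁴ = w² E²`, and `a² B h E² = a² C² β B⁴ = w² β E²`, `a² B h = w² β`. KIL0: `A^δ = B^δ = 0` (`dcf`). Apply `dcf δ` to `E² h = C² β B³` (`h^δ = 0`, `β^δ = 0`): `2 E E^δ h = 2 C C^δ β B³`; times `E`: `C² β B³ E^δ = C C^δ E β B³`, so `C E^δ = C^δ E`; `C, E` coprime: `E ∣ E^δ`, `E` monic: `E^δ = 0`, `C^δ = 0`. -/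
def KIL : Prop :=
  ∀ (K Ω : Type) [Field K] [CharZero K] [Field Ω] [IsAlgClosed Ω] [Algebra K Ω]
    (W W' : Affine K), W.IsElliptic → W'.IsElliptic → ∀ A B C E : Polynomial Ω,
    AddF (WL Ω W) (WL Ω W') A B C E → B.Monic → E.Monic → IsCoprime C E →
    ∀ δ : Derivation K Ω Ω, ∀ i : ℕ, δ (A.coeff i) = 0 ∧ δ (B.coeff i) = 0 ∧ δ (C.coeff i) = 0 ∧
      δ (E.coeff i) = 0

/-- **NFE**: a number field which contains finitely many algebraic elements. No hypotheses.
PROOF. `T := ` the finite set of the coefficients `(p i).coeff n`, `i < 4`, `n ≤ natDegree (p i)`, `L := IntermediateField.adjoin K T`, finite over `K` (`IntermediateField.finiteDimensional_adjoin`), so a number field (`NumberField.of_module_finite`). All `(p i).coeff n ∈ L` (`0 ∈ L` for large `n`). `q i := ∑_(n ≤ natDegree) C ⟨(p i).coeff n, _⟩ * X^n` (or `Polynomial.lifts`, `Polynomial.toSubring`). -/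
def NFE : Prop :=
  ∀ (K Ω : Type) [Field K] [NumberField K] [Field Ω] [Algebra K Ω] (p : Fin 4 → Polynomial Ω),
    (∀ i n, IsAlgebraic K ((p i).coeff n)) →
    ∃ (K₂ : Type) (_ : Field K₂) (_ : NumberField K₂) (_ : Algebra K K₂) (_ : Algebra K₂ Ω)
      (_ : IsScalarTower K K₂ Ω) (q : Fin 4 → K₂[X]), ∀ i, (q i).map (algebraMap K₂ Ω) = p i

/-- **DSC**: descent of an additive formula. Hypotheses allowed: PID, EMB2, IN1, IN2, MPX, PTS, BPF. (Landed: EMB.)
PROOF. `cop`: `Polynomial.isCoprime_map`. `hB`, `hE`, `nc`: `Polynomial.map` is injective, commutes with `derivative`. PID over `Ω` and injectivity: `E² hf W' A B = C² bp W B³` in `k[X]` (`(WL Ω W).b₂ = algebraMap W.b₂`, so `bp (WL Ω W) = (bp W).map`, the same for `hf`). `ex`: `P ∈ W(F)` generic, `x := xc P`, `B(x), E(x) ≠ 0`: `z := A(x)/B(x)`, `v := ps P C(x)/E(x)`, `v² = Bf z` by the identity divided by `E(x)² B(x)³`; PTS: a point `R` with `xc R = z`, `ps R = v`, `R ≠ 0`. `add`: `P,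 Q ∈ W(F)` independent over `k`, `R, R', R''` the values at `P, Q, P + Q`. Let `L₀, P₀, Q₀` be the points of IN1 over `k`, `R₀, R₀', R₀''` the values at `P₀, Q₀, P₀ + Q₀` (`ex`; `P₀ + Q₀` is generic, IN2).
Let `L₁, P₁, Q₁` be the points of IN1 over `Ω` for the curve `WL Ω W`, independent over `Ω`, so over `k` (`L₁` is a `k`-algebra by `Algebra.compHom` or `((algebraMap Ω L₁).comp (algebraMap k Ω)).toAlgebra`, then `WL L₁ (WL Ω W) = WL L₁ W` is `rfl`). EMB2 over `k`: `j : L₀ → L₁` with `P₀, Q₀ ↦ P₁, Q₁`. The images of `R₀, R₀', R₀''` are values (over `Ω`: `aeval x (A.map _) = aeval x A`) at `P₁, Q₁, P₁ + Q₁`, so `AddF.add` over `Ω` gives `mp j R₀'' = mp j R₀ + mp j R₀'`, `R₀'' = R₀ + R₀'`. EMB2: `i : L₀ → AlgebraicClosure F` with `P₀, Q₀ ↦` the images of `P, Q`; a value at a generic point is unique (`xc`, `ps` are given, PTS), so `i` maps `R₀, R₀', R₀''` to the images of `R, R', R''`; so `R'' = R + R'` (injective). -/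
def DSC : Prop :=
  ∀ (k Ω : Type) [Field k] [CharZero k] [Field Ω] [IsAlgClosed Ω] [Algebra k Ω]
    (W W' : Affine k), W.IsElliptic → W'.IsElliptic → ∀ A B C E : k[X],
    AddF (WL Ω W) (WL Ω W') (A.map (algebraMap k Ω)) (B.map (algebraMap k Ω))
      (C.map (algebraMap k Ω)) (E.map (algebraMap k Ω)) → AddF W W' A B C E

end

end Pool.Agent.Helper19.TGX
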