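import Pool.Agent.Helper19.TGX.AsmA
import Pool.Agent.Helper35.TG.RGEN

/-!
# Project TGX (MP_a41896_nt): packet PID
-/

set_option autoImplicit false

open Polynomial

namespace Pool.Agent.Helper19.TGX

open WeierstrassCurve
open Pool.Agent.Helper29.BL Pool.Agent.Helper42.SG
open Pool.Agent.Helper60.T3 (WL)
open Pool.Agent.Helper92.TG (mp)
open Pool.Agent.Helper60.TGX (Val AddF)

theorem pid (hBPF : BPF) : PID := by
  classical
  intro k _ _ W W' hW hW' A B G E hadd
  haveI := hW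
  obtain ⟨P, hP, hx⟩ := Pool.Agent.Helper35.TG.RGEN.exists_pt (W := W)
    (algebraMap (RatFunc k) (AlgebraicClosure (RatFunc k)) RatFunc.X)
  have hT : Transcendental k (xc P) := by
    rw [hx]
    exact (transcendental_algebraMap_iff
      (algebraMap (RatFunc k) (AlgebraicClosure (RatFunc k))).injective).mpr
      RatFunc.transcendental_X
  obtain ⟨R, hR0, hR1, hR2⟩ := hadd.ex _ P hT
  obtain ⟨-, -, -, -, hbp, -, -⟩ := hBPF k W hW
  obtain ⟨-, -, -, -, -, hhf, hcop⟩ := hBPF k W' hW'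
  have e1 : ps R ^ 2 = Bf (WL (AlgebraicClosure (RatFunc k)) W') (xc R) :=
    Pool.Agent.Helper24.SGB.ps_sq R hR0
  have e2 : ps P ^ 2 = Bf (WL (AlgebraicClosure (RatFunc k)) W) (xc P) :=
    Pool.Agent.Helper24.SGB.ps_sq P hP
  have e3 := hhf (AlgebraicClosure (RatFunc k)) (xc P) (xc R) A B hR1
  have e4 := hbp (AlgebraicClosure (RatFunc k)) (xc P)
  have key : E ^ 2 * hf W' A B = G ^ 2 * bp W * B ^ 3 := by
    refine sub_eq_zero.mp (by_contra fun h0 => aeval_ne hT h0 ?_)
    rw [map_sub, map_mul, map_mul, map_mul, map_pow, map_pow, map_pow, e3, e4, ← e1, ← e2]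
    linear_combination (aeval (xc P) B ^ 3) *
      (ps R * aeval (xc P) E + aeval (xc P) G * ps P) * hR2
  refine ⟨key, fun hG => hadd.nc ?_⟩
  rw [hG] at key
  have h1 : E ^ 2 * hf W' A B = 0 := by
    rw [key]
    ring
  have h2 : hf W' A B = 0 := (mul_eq_zero.mp h1).resolve_left (pow_ne_zero 2 hadd.hE)
  exact (hcop A B hadd.cop).2 h2

end Pool.Agent.Helper19.TGX
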