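import Pool.Agent.Helper19.TGX.Goals
import Pool.Agent.Helper19.TG.PRM

/-!
# Project TGX (MP_a41896_nt): packet PTS
-/

set_option autoImplicit false

namespace Pool.Agent.Helper19.TGX

open WeierstrassCurve
open Pool.Agent.Helper29.BL Pool.Agent.Helper42.SG

theorem th_PTS : PTS := by
  intro F _ _ _ W hW
  haveI := hW
  refine ⟨?_, ?_, ?_⟩
  · intro x ψ h
    have h2 : (2 : F) ≠ 0 := two_ne_zero
    have h4 : (4 : F) ≠ 0 := by norm_num
    have hy : 2 * ((ψ - W.a₁ * x - W.a₃) / 2) + W.a₁ * x + W.a₃ = ψ := by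
      field_simp
      ring
    set y := (ψ - W.a₁ * x - W.a₃) / 2 with hyd
    have heq : W.Equation x y := by
      rw [Affine.equation_iff]
      refine mul_left_cancel₀ h4 ?_
      have e : ψ ^ 2 = 4 * x ^ 3 + W.b₂ * x ^ 2 + 2 * W.b₄ * x + W.b₆ := h
      rw [← hy, WeierstrassCurve.b₂, WeierstrassCurve.b₄, WeierstrassCurve.b₆] at e
      linear_combination e
    have hns : W.Nonsingular x y := (Affine.equation_iff_nonsingular).mp heq
    exact ⟨.some x y hns, Affine.Point.some_ne_zero _, rfl, hy⟩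
  · intro P Q hP hQ hx hp
    exact Pool.Agent.Helper19.TG.pt_eq hP hQ hx hp
  · intro P
    rcases P with _ | ⟨x, y, h⟩
    · refine ⟨rfl, ?_⟩
      change (0 : F) = -0
      exact neg_zero.symm
    · refine ⟨rfl, ?_⟩
      change 2 * W.negY x y + W.a₁ * x + W.a₃ = -(2 * y + W.a₁ * x + W.a₃)
      rw [Affine.negY]
      ring

end Pool.Agent.Helper19.TGX
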