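import Pool.Agent.Helper19.TGX.AsmA
import Pool.Agent.Helper19.TGX.AsmB
import Pool.Agent.Helper34.TGX.BPF
import Pool.Agent.Helper43.TGX.PFW
import Pool.Agent.Helper52.TGX.CRP
import Pool.Agent.Helper26.TGX.MPX
import Pool.Agent.Helper15.TGX.IN1
import Pool.Agent.Helper17.TGX.IN3
import Pool.Agent.Helper59.TGX.EMB2
import Pool.Agent.Helper33.TGX.GMX
import Pool.Agent.Helper91.TGX.GFO
import Pool.Agent.Helper12.TGX.GDR
import Pool.Agent.Helper96.TGX.GAD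
import Pool.Agent.Helper13.TGX.DCF
import Pool.Agent.Helper79.TGX.RHO
import Pool.Agent.Helper7.TGX.ALGZ
import Pool.Agent.Helper44.TGX.NRM
import Pool.Agent.Helper24.TGX.KIL
import Pool.Agent.Helper85.TGX.DSC
import Pool.Agent.Helper90.TGX.PDEG
import Pool.Agent.Helper22.TGX.IN2
import Pool.Agent.Helper94.TGX.KIL0
import Pool.Agent.Helper77.TGX.NFE
import Pool.Agent.Helper88.TGX.GFE
import Pool.Agent.Helper19.TGX.PTS
import Pool.Agent.Helper19.TGX.C1A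
import Pool.Agent.Helper19.TGX.PID
import Pool.Agent.Helper19.TGX.CST

/-!
# Project TGX (MP_a41896_nt): C1, C2
-/

set_option autoImplicit false

namespace Pool.Agent.Helper19.TGX.MainC

open Pool.Agent.Helper19.TGX
open Pool.Agent.Helper60.TGX (S_C1 S_C2)

theorem th_BPF : BPF := Pool.Agent.Helper34.TGX.BPF.t
theorem th_PFW : PFW := Pool.Agent.Helper43.TGX.PFW.t
theorem th_MPX : MPX := Pool.Agent.Helper26.TGX.MPX.t
theorem th_IN1 : IN1 := Pool.Agent.Helper15.TGX.IN1.t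
theorem th_IN3 : IN3 := Pool.Agent.Helper17.TGX.IN3.t
theorem th_EMB2 : EMB2 := Pool.Agent.Helper59.TGX.EMB2.t
theorem th_GMX : GMX := Pool.Agent.Helper33.TGX.GMX.t
theorem th_GFO : GFO := Pool.Agent.Helper91.TGX.GFO.t
theorem th_DCF : DCF := Pool.Agent.Helper13.TGX.DCF.t
theorem th_RHO : RHO := Pool.Agent.Helper79.TGX.RHO.t
theorem th_ALGZ : ALGZ := Pool.Agent.Helper7.TGX.ALGZ.t

theorem th_PDEG : PDEG := Pool.Agent.Helper90.TGX.PDEG.t th_BPF
theorem th_CRP : CRP := Pool.Agent.Helper52.TGX.CRP.t th_PFW th_PDEG th_BPF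
theorem th_IN2 : IN2 := Pool.Agent.Helper22.TGX.IN2.t
theorem th_KIL0 : KIL0 := Pool.Agent.Helper94.TGX.KIL0.t th_DCF th_RHO th_BPF
theorem th_NFE : NFE := Pool.Agent.Helper77.TGX.NFE.t
theorem th_NRM : NRM := Pool.Agent.Helper44.TGX.NRM.t th_IN2

theorem th_GFE : GFE := Pool.Agent.Helper88.TGX.GFE.t th_CRP th_BPF th_MPX
theorem th_CST : CST := cst th_BPF th_MPX
theorem th_GDR : GDR :=
  Pool.Agent.Helper12.TGX.GDR.t th_GFO th_GFE th_CRP th_BPF th_PTS th_MPX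
theorem th_GAD : GAD :=
  Pool.Agent.Helper96.TGX.GAD.t th_CST th_EMB2 th_IN1 th_IN2 th_PTS th_MPX
theorem th_C1A : C1A := c1a th_IN2 th_IN3 th_MPX th_PTS
theorem th_PID : PID := pid th_BPF
theorem th_KIL : KIL := Pool.Agent.Helper24.TGX.KIL.t th_KIL0 th_PID th_CRP th_BPF th_DCF
theorem th_DSC : DSC :=
  Pool.Agent.Helper85.TGX.DSC.t th_PID th_EMB2 th_IN1 th_IN2 th_MPX th_PTS th_BPF

/-- **rigidity** -/
theorem th_C1 : S_C1 := c1 th_PTS th_MPX th_GMX th_GDR th_GAD th_C1A th_GFO th_IN2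

/-- **descent** -/
theorem th_C2 : S_C2 := c2 th_NRM th_KIL th_ALGZ th_NFE th_DSC

end Pool.Agent.Helper19.TGX.MainC
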